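import Mathlib

set_option autoImplicit false

namespace Pool.Agent.Results.MP_b27533_gt.QuarticBody

open MeasureTheory Metric Set
open scoped RealInnerProductSpace

/-! ### Definitions used in the statement -/

section Defs

variable {H : Type*} [NormedAddCommGroup H] [InnerProductSpace ℝ H]

/-- An ellipsoid of `H`: the image of the closed unit ball under an invertible affine map. -/
def IsEllipsoid (E : Set H) : Prop :=
  ∃ (T : H ≃ₗ[ℝ] H) (c : H), E = (fun x => T x + c) '' closedBall (0 : H) 1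

/-- An origin-symmetric ellipsoid of `H`: the image of the closed unit ball under an invertible
linear map. -/
def IsOriginSymmetricEllipsoid (E : Set H) : Prop :=
  ∃ T : H ≃ₗ[ℝ] H, E = T '' closedBall (0 : H) 1

/-- A Euclidean ball (of positive radius, with arbitrary centre). -/
def IsEuclideanBall (E : Set H) : Prop := ∃ (c : H) (r : ℝ), 0 < r ∧ E = closedBall c r

omit [InnerProductSpace ℝ H] in
lemma sym_mul (A : Set H) (S T : H ≃ᵢ H) (hS : S '' A = A) (hT : T '' A = A) :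
    (S * T : H ≃ᵢ H) '' A = A := by
  have : (⇑(S * T) : H → H) = S ∘ T := rfl
  rw [this, image_comp, hT, hS]

omit [InnerProductSpace ℝ H] in
lemma sym_one (A : Set H) : (1 : H ≃ᵢ H) '' A = A := by
  have : (⇑(1 : H ≃ᵢ H) : H → H) = id := rfl
  simp [this]

omit [InnerProductSpace ℝ H] in
lemma sym_inv (A : Set H) (S : H ≃ᵢ H) (hS : S '' A = A) : (S⁻¹ : H ≃ᵢ H) '' A = A := by
  have h : (⇑(S⁻¹) : H → H) ∘ S = id := by
    funext x
    exact S.symm_apply_apply x
  calc (S⁻¹ : H ≃ᵢ H) '' A = (S⁻¹ : H ≃ᵢ H) '' (S '' A) := by rw [hS]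
    _ = ((⇑(S⁻¹) : H → H) ∘ S) '' A := by rw [image_comp]
    _ = A := by rw [h, image_id]

/-- `Sym(A)`: the group of all isometries of `H` that map `A` onto itself. -/
def symGroup (A : Set H) : Subgroup (H ≃ᵢ H) where
  carrier := {T | T '' A = A}
  mul_mem' := fun {S T} hS hT => sym_mul A S T hS hT
  one_mem' := sym_one A
  inv_mem' := fun {S} hS => sym_inv A S hS

/-- A group of isometries is complete if every ellipsoid invariant under it is a ball. -/
def IsCompleteGroup (G : Subgroup (H ≃ᵢ H)) : Prop :=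
  ∀ E : Set H, IsEllipsoid E → G ≤ symGroup E → IsEuclideanBall E

/-- A convex body: compact, convex, with non-empty interior. -/
def IsConvexBody (K : Set H) : Prop := IsCompact K ∧ Convex ℝ K ∧ (interior K).Nonempty

variable [FiniteDimensional ℝ H]

section

variable [MeasurableSpace H] [BorelSpace H]

/-- `A` has positive finite volume and its centroid is the origin. -/
def HasCentroidZero (A : Set H) : Prop :=
  0 < volume A ∧ volume A < ⊤ ∧ IntegrableOn (fun x : H => x) A volume ∧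
    ∫ x in A, x ∂volume = 0

/-- `A` is completely symmetric: its centroid is the origin and its symmetry group is complete. -/
def IsCompletelySymmetric (A : Set H) : Prop :=
  HasCentroidZero A ∧ IsCompleteGroup (symGroup A)

/-- `B` is a linear image of a completely symmetric set. -/
def IsLinearImageOfCompletelySymmetric (B : Set H) : Prop :=
  ∃ (A : Set H) (T : H ≃ₗ[ℝ] H), IsCompletelySymmetric A ∧ B = T '' A

end

/-- The hyperplane `u^⊥`. -/
noncomputable def perp (u : H) : Submodule ℝ H := (ℝ ∙ u)ᗮ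

/-- `K|u^⊥`: the orthogonal projection of `K` onto the hyperplane `u^⊥`, as a subset of `u^⊥`. -/
noncomputable def hyperplaneProjection (K : Set H) (u : H) : Set (perp u) :=
  (perp u).orthogonalProjectionOnto '' K

/-- For every unit vector `u`, the projection `K|u^⊥` is a linear image of a completely symmetric
subset of `u^⊥`. -/
def AllProjectionsAreLinearImages [MeasurableSpace H] [BorelSpace H] (K : Set H) : Prop :=
  ∀ u : H, ‖u‖ = 1 → IsLinearImageOfCompletelySymmetric (hyperplaneProjection K u)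

end Defs

/-! ### The quartic form and the gauge -/

/-- ambient space -/
abbrev E3 : Type := EuclideanSpace ℝ (Fin 3)

/-- The quartic form, as a product of two positive definite quadratic forms. -/
noncomputable def Q (v : E3) : ℝ := ‖v‖ ^ 2 * (‖v‖ ^ 2 + (v 2) ^ 2)

lemma norm_sq_eq (v : E3) : ‖v‖ ^ 2 = (v 0) ^ 2 + (v 1) ^ 2 + (v 2) ^ 2 := by
  rw [EuclideanSpace.norm_sq_eq, Fin.sum_univ_three]
  simp

lemma Q_eq (v : E3) : Q v = 1 / 6 * (v 0 + v 1) ^ 4 + 1 / 6 * (v 0 - v 1) ^ 4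
    + 1 / 4 * (v 0 + v 2) ^ 4 + 1 / 4 * (v 0 - v 2) ^ 4
    + 1 / 4 * (v 1 + v 2) ^ 4 + 1 / 4 * (v 1 - v 2) ^ 4
    + 1 / 6 * (v 0) ^ 4 + 1 / 6 * (v 1) ^ 4 + (v 2) ^ 4 := by
  rw [Q, norm_sq_eq]
  ring

lemma pow4_convex (a b s t : ℝ) (hs : 0 ≤ s) (ht : 0 ≤ t) (hst : s + t = 1) :
    (s * a + t * b) ^ 4 ≤ s * a ^ 4 + t * b ^ 4 := by
  have h := (Even.convexOn_pow (𝕜 := ℝ) (n := 4) (by decide)).2 (mem_univ a) (mem_univ b) hs ht hst
  simpa using h

lemma Q_convex (v w : E3) (s t : ℝ) (hs : 0 ≤ s) (ht : 0 ≤ t) (hst : s + t = 1) :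
    Q (s • v + t • w) ≤ s * Q v + t * Q w := by
  have e0 : (s • v + t • w) 0 = s * v 0 + t * w 0 := by simp
  have e1 : (s • v + t • w) 1 = s * v 1 + t * w 1 := by simp
  have e2 : (s • v + t • w) 2 = s * v 2 + t * w 2 := by simp
  rw [Q_eq, Q_eq v, Q_eq w, e0, e1, e2]
  have h1 := pow4_convex (v 0 + v 1) (w 0 + w 1) s t hs ht hst
  have h2 := pow4_convex (v 0 - v 1) (w 0 - w 1) s t hs ht hst
  have h3 := pow4_convex (v 0 + v 2) (w 0 + w 2) s t hs ht hst
  have h4 := pow4_convex (v 0 - v 2) (w 0 - w 2) s t hs ht hst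
  have h5 := pow4_convex (v 1 + v 2) (w 1 + w 2) s t hs ht hst
  have h6 := pow4_convex (v 1 - v 2) (w 1 - w 2) s t hs ht hst
  have h7 := pow4_convex (v 0) (w 0) s t hs ht hst
  have h8 := pow4_convex (v 1) (w 1) s t hs ht hst
  have h9 := pow4_convex (v 2) (w 2) s t hs ht hst
  have g1 : s * v 0 + t * w 0 + (s * v 1 + t * w 1) = s * (v 0 + v 1) + t * (w 0 + w 1) := by ring
  have g2 : s * v 0 + t * w 0 - (s * v 1 + t * w 1) = s * (v 0 - v 1) + t * (w 0 - w 1) := by ring
  have g3 : s * v 0 + t * w 0 + (s * v 2 + t * w 2) = s * (v 0 + v 2) + t * (w 0 + w 2) := by ring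
  have g4 : s * v 0 + t * w 0 - (s * v 2 + t * w 2) = s * (v 0 - v 2) + t * (w 0 - w 2) := by ring
  have g5 : s * v 1 + t * w 1 + (s * v 2 + t * w 2) = s * (v 1 + v 2) + t * (w 1 + w 2) := by ring
  have g6 : s * v 1 + t * w 1 - (s * v 2 + t * w 2) = s * (v 1 - v 2) + t * (w 1 - w 2) := by ring
  rw [g1, g2, g3, g4, g5, g6]
  linarith

lemma Q_smul (c : ℝ) (v : E3) : Q (c • v) = c ^ 4 * Q v := by
  simp only [Q, norm_smul, Real.norm_eq_abs, mul_pow, sq_abs, PiLp.smul_apply, smul_eq_mul]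
  ring

lemma Q_ge (v : E3) : ‖v‖ ^ 4 ≤ Q v := by
  have : 0 ≤ ‖v‖ ^ 2 * (v 2) ^ 2 := by positivity
  rw [Q]
  nlinarith [this]

lemma Q_nonneg (v : E3) : 0 ≤ Q v := le_trans (by positivity) (Q_ge v)

lemma Q_le (v : E3) : Q v ≤ 2 * ‖v‖ ^ 4 := by
  have h := norm_sq_eq v
  have h0 := sq_nonneg (v 0)
  have h1 := sq_nonneg (v 1)
  have h2 : (v 2) ^ 2 ≤ ‖v‖ ^ 2 := by rw [h]; linarith
  rw [Q]
  nlinarith [mul_le_mul_of_nonneg_left h2 (sq_nonneg ‖v‖)]

/-- fourth root of `Q` -/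
noncomputable def N (v : E3) : ℝ := √(√(Q v))

lemma N_nonneg (v : E3) : 0 ≤ N v := Real.sqrt_nonneg _

lemma N_pow (v : E3) : N v ^ 4 = Q v := by
  have h1 : N v ^ 4 = ((√(√(Q v))) ^ 2) ^ 2 := by rw [N]; ring
  rw [h1, Real.sq_sqrt (Real.sqrt_nonneg _), Real.sq_sqrt (Q_nonneg v)]

lemma le_N_iff {a : ℝ} (ha : 0 ≤ a) (v : E3) : a ≤ N v ↔ a ^ 4 ≤ Q v := by
  rw [← N_pow]
  exact (pow_le_pow_iff_left₀ ha (N_nonneg v) (by norm_num)).symm

lemma N_le_iff {a : ℝ} (ha : 0 ≤ a) (v : E3) : N v ≤ a ↔ Q v ≤ a ^ 4 := by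
  rw [← N_pow]
  exact (pow_le_pow_iff_left₀ (N_nonneg v) ha (by norm_num)).symm

lemma N_smul (c : ℝ) (v : E3) : N (c • v) = |c| * N v := by
  have h1 : N (c • v) ^ 4 = (|c| * N v) ^ 4 := by
    rw [N_pow, Q_smul, mul_pow, N_pow]
    congr 1
    rw [← abs_pow, abs_of_nonneg]
    positivity
  exact (pow_left_inj₀ (N_nonneg _) (mul_nonneg (abs_nonneg _) (N_nonneg _)) (by norm_num)).1 h1

lemma N_pos {v : E3} (hv : v ≠ 0) : 0 < N v := by
  have h : 0 < ‖v‖ := norm_pos_iff.2 hv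
  exact lt_of_lt_of_le h ((le_N_iff h.le v).2 (Q_ge v))

lemma N_add (v w : E3) : N (v + w) ≤ N v + N w := by
  by_cases hv : v = 0
  · subst hv
    simp only [zero_add]
    linarith [N_nonneg (0 : E3)]
  by_cases hw : w = 0
  · subst hw
    simp only [add_zero]
    linarith [N_nonneg (0 : E3)]
  have ha := N_pos hv
  have hb := N_pos hw
  set a := N v with hadef
  set b := N w with hbdef
  rw [N_le_iff (by linarith)]
  have hab : 0 < a + b := by linarith
  have key : v + w = (a + b) • ((a / (a + b)) • ((1 / a) • v) + (b / (a + b)) • ((1 / b) • w)) := by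
    have e1 : (a + b) * (a / (a + b) * (1 / a)) = 1 := by field_simp
    have e2 : (a + b) * (b / (a + b) * (1 / b)) = 1 := by field_simp
    simp only [smul_add, smul_smul]
    rw [e1, e2, one_smul, one_smul]
  rw [key, Q_smul]
  have h1 := Q_convex ((1 / a) • v) ((1 / b) • w) (a / (a + b)) (b / (a + b))
    (by positivity) (by positivity) (by field_simp)
  have q1 : Q ((1 / a) • v) = 1 := by
    rw [Q_smul, ← N_pow v, ← hadef]
    field_simp
  have q2 : Q ((1 / b) • w) = 1 := by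
    rw [Q_smul, ← N_pow w, ← hbdef]
    field_simp
  rw [q1, q2] at h1
  have h2 : a / (a + b) * 1 + b / (a + b) * 1 = 1 := by field_simp
  rw [h2] at h1
  calc (a + b) ^ 4 * Q _ ≤ (a + b) ^ 4 * 1 := by
        apply mul_le_mul_of_nonneg_left h1 (by positivity)
    _ = (a + b) ^ 4 := by ring

/-- The convex body. -/
def K : Set E3 := {x | ∀ v : E3, ⟪x, v⟫ ≤ N v}

lemma mem_K_iff {x : E3} : x ∈ K ↔ ∀ v : E3, ⟪x, v⟫ ≤ N v := Iff.rfl

/-- Hahn-Banach: a functional on a subspace dominated by `N` comes from a point of `K`. -/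
lemma extend (U : Submodule ℝ E3) (f : U →ₗ[ℝ] ℝ) (hf : ∀ v : U, f v ≤ N v) :
    ∃ x ∈ K, ∀ v : U, ⟪x, (v : E3)⟫ = f v := by
  obtain ⟨g, hg1, hg2⟩ := exists_extension_of_le_sublinear (⟨U, f⟩ : E3 →ₗ.[ℝ] ℝ) N
    (fun c hc x => by rw [N_smul, abs_of_pos hc]) N_add hf
  let x : E3 := (InnerProductSpace.toDual ℝ E3).symm (LinearMap.toContinuousLinearMap g)
  have hx : ∀ v, ⟪x, v⟫ = g v := by
    intro v
    simp [x]
  refine ⟨x, ?_, ?_⟩
  · intro v
    rw [hx]
    exact hg2 v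
  · intro v
    rw [hx]
    exact hg1 v


lemma K_closed : IsClosed K := by
  have : K = ⋂ v : E3, {x : E3 | ⟪x, v⟫ ≤ N v} := by
    ext x
    simp [K]
  rw [this]
  refine isClosed_iInter fun v => ?_
  exact isClosed_le (continuous_id.inner continuous_const) continuous_const

lemma K_convex : Convex ℝ K := by
  intro x hx y hy a b ha hb hab v
  rw [inner_add_left, inner_smul_left, inner_smul_left]
  simp only [conj_trivial]
  have h1 := mul_le_mul_of_nonneg_left (hx v) ha
  have h2 := mul_le_mul_of_nonneg_left (hy v) hb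
  have h3 : a * N v + b * N v = N v := by rw [← add_mul, hab, one_mul]
  linarith

lemma K_subset : K ⊆ closedBall 0 2 := by
  intro x hx
  rw [mem_closedBall_zero_iff]
  by_contra hcon
  push Not at hcon
  have h1 : ‖x‖ ^ 2 ≤ N x := by
    have := hx x
    rwa [real_inner_self_eq_norm_sq] at this
  rw [le_N_iff (by positivity)] at h1
  have h2 := h1.trans (Q_le x)
  have h3 : (16 : ℝ) < ‖x‖ ^ 4 := by
    have : (2 : ℝ) ^ 4 < ‖x‖ ^ 4 := by
      apply pow_lt_pow_left₀ hcon (by norm_num) (by norm_num)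
    linarith
  have h4 : (‖x‖ ^ 2) ^ 4 = ‖x‖ ^ 4 * ‖x‖ ^ 4 := by ring
  rw [h4] at h2
  nlinarith

lemma K_compact : IsCompact K :=
  Metric.isCompact_of_isClosed_isBounded K_closed (isBounded_closedBall.subset K_subset)

lemma ball_subset_K {x : E3} (hx : ‖x‖ ≤ 1) : x ∈ K := by
  intro v
  calc ⟪x, v⟫ ≤ ‖x‖ * ‖v‖ := real_inner_le_norm _ _
    _ ≤ 1 * ‖v‖ := by gcongr
    _ = ‖v‖ := one_mul _
    _ ≤ N v := (le_N_iff (norm_nonneg v) v).2 (Q_ge v)

lemma K_body : IsConvexBody K := by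
  refine ⟨K_compact, K_convex, ⟨0, ?_⟩⟩
  rw [mem_interior]
  exact ⟨ball 0 1, fun x hx => ball_subset_K (mem_ball_zero_iff.1 hx).le, isOpen_ball,
    mem_ball_self one_pos⟩

/-- The support function of `K` is `N`. -/
lemma support_attained (v : E3) : ∃ x ∈ K, ⟪x, v⟫ = N v := by
  by_cases hv : v = 0
  · subst hv
    refine ⟨0, ball_subset_K (by simp), ?_⟩
    have : N (0 : E3) = 0 := by
      have := N_smul 0 (0 : E3)
      simpa using this
    simp [this]
  · have hv2 : ‖v‖ ^ 2 ≠ 0 := pow_ne_zero 2 (norm_ne_zero_iff.2 hv)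
    let f : (ℝ ∙ v : Submodule ℝ E3) →ₗ[ℝ] ℝ :=
      ((N v / ‖v‖ ^ 2) • (innerₗ E3 v)) ∘ₗ (ℝ ∙ v : Submodule ℝ E3).subtype
    have hf : ∀ w : (ℝ ∙ v : Submodule ℝ E3), f w = N v / ‖v‖ ^ 2 * ⟪v, (w : E3)⟫ := fun w => rfl
    obtain ⟨x, hxK, hx⟩ := extend (ℝ ∙ v) f (by
      rintro ⟨w, hw⟩
      rw [hf]
      obtain ⟨t, rfl⟩ := Submodule.mem_span_singleton.1 hw
      simp only [inner_smul_right, real_inner_self_eq_norm_sq, N_smul]
      have : N v / ‖v‖ ^ 2 * (t * ‖v‖ ^ 2) = t * N v := by field_simp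
      rw [this]
      exact mul_le_mul_of_nonneg_right (le_abs_self t) (N_nonneg v))
    refine ⟨x, hxK, ?_⟩
    have := hx ⟨v, Submodule.mem_span_singleton_self v⟩
    rw [hf] at this
    simp only [real_inner_self_eq_norm_sq] at this
    rw [this]
    field_simp

/-- the point `e_i` -/
noncomputable def e (i : Fin 3) : E3 := EuclideanSpace.single i 1

lemma N_sq_sq (v : E3) : (N v ^ 2) ^ 2 = Q v := by rw [← N_pow]; ring

lemma not_ellipsoid : ¬ IsOriginSymmetricEllipsoid K := by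
  rintro ⟨T, hT⟩
  let S := LinearMap.adjoint (T : E3 →ₗ[ℝ] E3)
  have hS : ∀ x v : E3, ⟪T x, v⟫ = ⟪x, S v⟫ := fun x v => by
    exact (LinearMap.adjoint_inner_right (T : E3 →ₗ[ℝ] E3) x v).symm
  have hN : ∀ v : E3, N v = ‖S v‖ := by
    intro v
    apply le_antisymm
    · obtain ⟨x, hxK, hx⟩ := support_attained v
      rw [hT] at hxK
      obtain ⟨b, hb, rfl⟩ := hxK
      rw [← hx, hS]
      rw [mem_closedBall_zero_iff] at hb
      calc ⟪b, S v⟫ ≤ ‖b‖ * ‖S v‖ := real_inner_le_norm _ _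
        _ ≤ 1 * ‖S v‖ := by gcongr
        _ = ‖S v‖ := one_mul _
    · by_cases h0 : ‖S v‖ = 0
      · rw [h0]; exact N_nonneg v
      · have hmem : T ((1 / ‖S v‖) • S v) ∈ K := by
          rw [hT]
          refine ⟨_, ?_, rfl⟩
          rw [mem_closedBall_zero_iff, norm_smul]
          simp [h0]
        have := hmem v
        rw [hS, inner_smul_left, real_inner_self_eq_norm_sq] at this
        simp only [conj_trivial] at this
        have h2 : 1 / ‖S v‖ * ‖S v‖ ^ 2 = ‖S v‖ := by field_simp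
        rwa [h2] at this
  have hpar : ∀ v w : E3, N (v + w) ^ 2 + N (v - w) ^ 2 = 2 * N v ^ 2 + 2 * N w ^ 2 := by
    intro v w
    rw [hN, hN, hN, hN, map_add, map_sub]
    have := parallelogram_law_with_norm ℝ (S v) (S w)
    nlinarith [this]
  have h := hpar (e 0) (e 2)
  have q1 : Q (e 0) = 1 := by
    rw [Q, norm_sq_eq]; simp [e]
  have q2 : Q (e 2) = 2 := by
    rw [Q, norm_sq_eq]; simp [e]; norm_num
  have q3 : Q (e 0 + e 2) = 6 := by
    rw [Q, norm_sq_eq]; simp [e]; norm_num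
  have q4 : Q (e 0 - e 2) = 6 := by
    rw [Q, norm_sq_eq]; simp [e]; norm_num
  have r1 := N_sq_sq (e 0)
  have r2 := N_sq_sq (e 2)
  have r3 := N_sq_sq (e 0 + e 2)
  have r4 := N_sq_sq (e 0 - e 2)
  rw [q1] at r1
  rw [q2] at r2
  rw [q3] at r3
  rw [q4] at r4
  have p1 : 0 ≤ N (e 0) ^ 2 := by positivity
  have p2 : 0 ≤ N (e 2) ^ 2 := by positivity
  have p3 : 0 ≤ N (e 0 + e 2) ^ 2 := by positivity
  have p4 : 0 ≤ N (e 0 - e 2) ^ 2 := by positivity
  set a := N (e 0) ^ 2
  set b := N (e 2) ^ 2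
  set c := N (e 0 + e 2) ^ 2
  set d := N (e 0 - e 2) ^ 2
  have ha : a = 1 := by nlinarith
  have hcd : c = d := by nlinarith
  have h5 : c = 1 + b := by linarith
  rw [h5] at r3
  have h6 : 2 * b = 3 := by nlinarith
  nlinarith

/-! ### Completeness of a group containing a rotation by a right angle -/

section Complete

variable {H : Type*} [NormedAddCommGroup H] [InnerProductSpace ℝ H]

lemma expand (b : OrthonormalBasis (Fin 2) ℝ H) (w : H) : w = ⟪b 0, w⟫ • b 0 + ⟪b 1, w⟫ • b 1 := by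
  have := b.sum_repr' w
  rw [Fin.sum_univ_two] at this
  exact this.symm

lemma norm_sq_basis (b : OrthonormalBasis (Fin 2) ℝ H) (w : H) :
    ‖w‖ ^ 2 = ⟪b 0, w⟫ ^ 2 + ⟪b 1, w⟫ ^ 2 := by
  have := b.sum_sq_inner_right w
  rw [Fin.sum_univ_two] at this
  exact this.symm

lemma complete_of_rot (b : OrthonormalBasis (Fin 2) ℝ H) (J : H ≃ₗᵢ[ℝ] H)
    (hJ0 : J (b 0) = b 1) (hJ1 : J (b 1) = -b 0) (G : Subgroup (H ≃ᵢ H))
    (hG : J.toIsometryEquiv ∈ G) : IsCompleteGroup G := by
  rintro E ⟨T, c, hE⟩ hGE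
  have hJJ : ∀ w, J (J w) = -w := by
    intro w
    conv_lhs => rw [expand b w]
    conv_rhs => rw [expand b w]
    simp only [map_add, map_smul, hJ0, hJ1, map_neg]
    module
  have hmem : ∀ w, w ∈ E ↔ ‖T.symm (w - c)‖ ≤ 1 := by
    intro w
    rw [hE]
    constructor
    · rintro ⟨x, hx, rfl⟩
      simpa using hx
    · intro hw
      exact ⟨T.symm (w - c), by simpa using hw, by simp⟩
  have hJE : ∀ w, w ∈ E → J w ∈ E := by
    intro w hw
    have h1 : J.toIsometryEquiv '' E = E := hGE hG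
    have h2 : J w ∈ J.toIsometryEquiv '' E := ⟨w, hw, rfl⟩
    rwa [h1] at h2
  have hneg : ∀ w, w ∈ E → -w ∈ E := by
    intro w hw
    rw [← hJJ]
    exact hJE _ (hJE _ hw)
  -- the centre is the origin
  have hc : T.symm c = 0 := by
    by_contra hcon
    have hpos : 0 < ‖T.symm c‖ := norm_pos_iff.2 hcon
    have h1 : c + T ((1 / ‖T.symm c‖) • T.symm c) ∈ E := by
      rw [hmem]
      simp only [add_sub_cancel_left, LinearEquiv.symm_apply_apply, norm_smul]
      simp [hpos.ne']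
    have h2 := hneg _ h1
    rw [hmem] at h2
    have h3 : T.symm (-(c + T ((1 / ‖T.symm c‖) • T.symm c)) - c)
        = -((2 + 1 / ‖T.symm c‖) • T.symm c) := by
      rw [map_sub, map_neg, map_add, LinearEquiv.symm_apply_apply]
      module
    rw [h3, norm_neg, norm_smul, Real.norm_eq_abs, abs_of_pos (by positivity)] at h2
    have h4 : (2 + 1 / ‖T.symm c‖) * ‖T.symm c‖ = 2 * ‖T.symm c‖ + 1 := by field_simp
    rw [h4] at h2
    linarith
  have hc0 : c = 0 := by simpa using hc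
  subst hc0
  simp only [sub_zero] at hmem
  have hle : ∀ w, ‖T.symm (J w)‖ ≤ ‖T.symm w‖ := by
    intro w
    by_cases hw : w = 0
    · subst hw; simp
    have hpos : 0 < ‖T.symm w‖ := norm_pos_iff.2 (by simpa using hw)
    have h1 : (1 / ‖T.symm w‖) • w ∈ E := by
      rw [hmem, map_smul, norm_smul]
      simp [hpos.ne']
    have h2 := hJE _ h1
    rw [hmem, map_smul, map_smul, norm_smul, Real.norm_eq_abs, abs_of_pos (by positivity)] at h2
    rw [one_div, inv_mul_le_iff₀ hpos, mul_one] at h2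
    exact h2
  have heq : ∀ w, ‖T.symm (J w)‖ = ‖T.symm w‖ := by
    intro w
    apply le_antisymm (hle w)
    have h1 := hle (J (J (J w)))
    have h2 := hle (J (J w))
    have h3 := hle (J w)
    have h4 : J (J (J (J w))) = w := by rw [hJJ (J (J w)), hJJ w, neg_neg]
    rw [h4] at h1
    exact h1.trans (h2.trans h3)
  -- the quadratic form is a multiple of the norm
  have h01 : ‖T.symm (b 1)‖ = ‖T.symm (b 0)‖ := by rw [← hJ0]; exact heq _
  have horth : ⟪T.symm (b 0), T.symm (b 1)⟫ = 0 := by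
    have h1 := heq (b 0 + b 1)
    rw [map_add, hJ0, hJ1, map_add, map_neg, map_add] at h1
    have h2 : ‖T.symm (b 1) + -T.symm (b 0)‖ ^ 2 = ‖T.symm (b 0) + T.symm (b 1)‖ ^ 2 := by
      rw [h1]
    rw [← sub_eq_add_neg, norm_sub_sq_real, norm_add_sq_real, real_inner_comm] at h2
    linarith
  have hα : 0 < ‖T.symm (b 0)‖ := by
    rw [norm_pos_iff]
    simp only [ne_eq, LinearEquiv.map_eq_zero_iff]
    exact b.orthonormal.ne_zero 0
  have hnorm : ∀ w, ‖T.symm w‖ = ‖T.symm (b 0)‖ * ‖w‖ := by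
    intro w
    have h1 : ‖T.symm w‖ ^ 2 = (‖T.symm (b 0)‖ * ‖w‖) ^ 2 := by
      rw [mul_pow, norm_sq_basis b w]
      conv_lhs => rw [expand b w]
      rw [map_add, map_smul, map_smul, norm_add_sq_real, norm_smul, norm_smul, inner_smul_left,
        inner_smul_right, horth, h01]
      simp only [mul_zero, add_zero, mul_pow, Real.norm_eq_abs, sq_abs]
      ring
    exact (pow_left_inj₀ (norm_nonneg _) (by positivity) (by norm_num)).1 h1
  refine ⟨0, 1 / ‖T.symm (b 0)‖, by positivity, ?_⟩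
  ext w
  rw [hmem, hnorm, mem_closedBall_zero_iff, le_div_iff₀ hα, mul_comm]

end Complete


/-! ### The projections -/

section Proj

variable (u : E3)

/-- the hyperplane `u^⊥` -/
noncomputable abbrev Hyp : Submodule ℝ E3 := perp u

lemma mem_proj_iff (w : Hyp u) :
    w ∈ hyperplaneProjection K u ↔ ∀ v : Hyp u, ⟪w, v⟫ ≤ N (v : E3) := by
  constructor
  · rintro ⟨x, hx, rfl⟩ v
    rw [Submodule.inner_orthogonalProjectionOnto_eq_of_mem_right]
    exact hx v
  · intro h
    obtain ⟨x, hxK, hx⟩ := extend (Hyp u) (innerₗ (Hyp u) w) (fun v => h v)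
    refine ⟨x, hxK, ?_⟩
    refine ext_inner_right ℝ fun v => ?_
    rw [Submodule.inner_orthogonalProjectionOnto_eq_of_mem_right]
    exact hx v

/-- An orthonormal basis of `u^⊥` adapted to the third coordinate. -/
lemma exists_basis (hu : ‖u‖ = 1) : ∃ (b : OrthonormalBasis (Fin 2) ℝ (Hyp u)) (m : ℝ),
    ∀ v : Hyp u, (v : E3) 2 = m * ⟪b 1, v⟫ := by
  have hu0 : u ≠ 0 := by
    rintro rfl
    simp at hu
  have : Fact (Module.finrank ℝ E3 = 2 + 1) := ⟨by simp [E3]⟩
  have hfin : Module.finrank ℝ (Hyp u) = Fintype.card (Fin 2) := by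
    rw [Hyp, perp, Submodule.finrank_orthogonal_span_singleton (n := 2) hu0]
    simp
  let p : Hyp u := (perp u).orthogonalProjectionOnto (e 2)
  have hp : ∀ v : Hyp u, (v : E3) 2 = ⟪p, v⟫ := by
    intro v
    rw [Submodule.inner_orthogonalProjectionOnto_eq_of_mem_right,
      show (e 2 : E3) = EuclideanSpace.single 2 1 from rfl, EuclideanSpace.inner_single_left]
    simp
  by_cases h0 : p = 0
  · have hv : Orthonormal ℝ ((∅ : Set (Fin 2)).domRestrict (fun _ : Fin 2 => p)) := by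
      constructor
      · rintro ⟨i, hi⟩
        exact absurd hi (notMem_empty i)
      · rintro ⟨i, hi⟩
        exact absurd hi (notMem_empty i)
    obtain ⟨b, _⟩ := hv.exists_orthonormalBasis_extension_of_card_eq hfin
    refine ⟨b, 0, fun v => ?_⟩
    rw [hp, h0]
    simp
  · have hpn : 0 < ‖p‖ := norm_pos_iff.2 h0
    have hv : Orthonormal ℝ (({1} : Set (Fin 2)).domRestrict
        (fun _ : Fin 2 => (1 / ‖p‖) • p)) := by
      constructor
      · rintro ⟨i, hi⟩
        rw [domRestrict_apply, norm_smul, Real.norm_eq_abs, abs_of_pos (by positivity)]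
        field_simp
      · rintro ⟨i, hi⟩ ⟨j, hj⟩ hij
        exfalso
        apply hij
        rw [mem_singleton_iff] at hi hj
        subst hi
        subst hj
        rfl
    obtain ⟨b, hb⟩ := hv.exists_orthonormalBasis_extension_of_card_eq hfin
    refine ⟨b, ‖p‖, fun v => ?_⟩
    have h1 := hb 1 rfl
    rw [hp, h1, inner_smul_left]
    simp only [conj_trivial]
    field_simp

/-- The rotation by a right angle in an orthonormal basis. -/
noncomputable def rot {H : Type*} [NormedAddCommGroup H] [InnerProductSpace ℝ H]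
    (b : OrthonormalBasis (Fin 2) ℝ H) : H ≃ₗᵢ[ℝ] H where
  toFun w := (-⟪b 1, w⟫) • b 0 + ⟪b 0, w⟫ • b 1
  map_add' := by
    intro v w
    simp only [inner_add_right]
    module
  map_smul' := by
    intro c v
    simp only [inner_smul_right, RingHom.id_apply]
    module
  invFun w := ⟪b 1, w⟫ • b 0 + (-⟪b 0, w⟫) • b 1
  left_inv := by
    intro w
    have h00 : ⟪b 0, b 0⟫ = (1 : ℝ) := by rw [real_inner_self_eq_norm_sq, b.orthonormal.1]; norm_num
    have h11 : ⟪b 1, b 1⟫ = (1 : ℝ) := by rw [real_inner_self_eq_norm_sq, b.orthonormal.1]; norm_num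
    have h01 : ⟪b 0, b 1⟫ = (0 : ℝ) := b.orthonormal.2 (by decide)
    have h10 : ⟪b 1, b 0⟫ = (0 : ℝ) := b.orthonormal.2 (by decide)
    conv_rhs => rw [expand b w]
    simp only [inner_add_right, inner_smul_right, h00, h11, h01, h10]
    module
  right_inv := by
    intro w
    have h00 : ⟪b 0, b 0⟫ = (1 : ℝ) := by rw [real_inner_self_eq_norm_sq, b.orthonormal.1]; norm_num
    have h11 : ⟪b 1, b 1⟫ = (1 : ℝ) := by rw [real_inner_self_eq_norm_sq, b.orthonormal.1]; norm_num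
    have h01 : ⟪b 0, b 1⟫ = (0 : ℝ) := b.orthonormal.2 (by decide)
    have h10 : ⟪b 1, b 0⟫ = (0 : ℝ) := b.orthonormal.2 (by decide)
    conv_rhs => rw [expand b w]
    simp only [inner_add_right, inner_smul_right, h00, h11, h01, h10]
    module
  norm_map' := by
    intro w
    have h00 : ⟪b 0, b 0⟫ = (1 : ℝ) := by rw [real_inner_self_eq_norm_sq, b.orthonormal.1]; norm_num
    have h11 : ⟪b 1, b 1⟫ = (1 : ℝ) := by rw [real_inner_self_eq_norm_sq, b.orthonormal.1]; norm_num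
    have h01 : ⟪b 0, b 1⟫ = (0 : ℝ) := b.orthonormal.2 (by decide)
    have h10 : ⟪b 1, b 0⟫ = (0 : ℝ) := b.orthonormal.2 (by decide)
    refine (pow_left_inj₀ (norm_nonneg _) (norm_nonneg _) (two_ne_zero)).1 ?_
    rw [norm_sq_basis b, norm_sq_basis b w]
    simp only [LinearEquiv.coe_mk, LinearMap.coe_mk, AddHom.coe_mk, inner_add_right,
      inner_smul_right, h00, h11, h01, h10]
    ring

/-- The dilation by `c` in the direction of the second basis vector. -/
noncomputable def dil {H : Type*} [NormedAddCommGroup H] [InnerProductSpace ℝ H]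
    (b : OrthonormalBasis (Fin 2) ℝ H) (c : ℝ) (hc : c ≠ 0) : H ≃ₗ[ℝ] H where
  toFun w := ⟪b 0, w⟫ • b 0 + (c * ⟪b 1, w⟫) • b 1
  map_add' := by
    intro v w
    simp only [inner_add_right]
    module
  map_smul' := by
    intro c v
    simp only [inner_smul_right, RingHom.id_apply]
    module
  invFun w := ⟪b 0, w⟫ • b 0 + (c⁻¹ * ⟪b 1, w⟫) • b 1
  left_inv := by
    intro w
    have h00 : ⟪b 0, b 0⟫ = (1 : ℝ) := by rw [real_inner_self_eq_norm_sq, b.orthonormal.1]; norm_num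
    have h11 : ⟪b 1, b 1⟫ = (1 : ℝ) := by rw [real_inner_self_eq_norm_sq, b.orthonormal.1]; norm_num
    have h01 : ⟪b 0, b 1⟫ = (0 : ℝ) := b.orthonormal.2 (by decide)
    have h10 : ⟪b 1, b 0⟫ = (0 : ℝ) := b.orthonormal.2 (by decide)
    conv_rhs => rw [expand b w]
    simp only [inner_add_right, inner_smul_right, h00, h11, h01, h10]
    have : c⁻¹ * (c * ⟪b 1, w⟫) = ⟪b 1, w⟫ := by field_simp
    simp only [mul_zero, mul_one, add_zero, zero_add, this]
  right_inv := by
    intro w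
    have h00 : ⟪b 0, b 0⟫ = (1 : ℝ) := by rw [real_inner_self_eq_norm_sq, b.orthonormal.1]; norm_num
    have h11 : ⟪b 1, b 1⟫ = (1 : ℝ) := by rw [real_inner_self_eq_norm_sq, b.orthonormal.1]; norm_num
    have h01 : ⟪b 0, b 1⟫ = (0 : ℝ) := b.orthonormal.2 (by decide)
    have h10 : ⟪b 1, b 0⟫ = (0 : ℝ) := b.orthonormal.2 (by decide)
    conv_rhs => rw [expand b w]
    simp only [inner_add_right, inner_smul_right, h00, h11, h01, h10]
    have : c * (c⁻¹ * ⟪b 1, w⟫) = ⟪b 1, w⟫ := by field_simp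
    simp only [mul_zero, mul_one, add_zero, zero_add, this]

lemma b_inner {H : Type*} [NormedAddCommGroup H] [InnerProductSpace ℝ H]
    (b : OrthonormalBasis (Fin 2) ℝ H) (x y : ℝ) :
    ⟪b 0, x • b 0 + y • b 1⟫ = x ∧ ⟪b 1, x • b 0 + y • b 1⟫ = y := by
  have h00 : ⟪b 0, b 0⟫ = (1 : ℝ) := by rw [real_inner_self_eq_norm_sq, b.orthonormal.1]; norm_num
  have h11 : ⟪b 1, b 1⟫ = (1 : ℝ) := by rw [real_inner_self_eq_norm_sq, b.orthonormal.1]; norm_num
  have h01 : ⟪b 0, b 1⟫ = (0 : ℝ) := b.orthonormal.2 (by decide)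
  have h10 : ⟪b 1, b 0⟫ = (0 : ℝ) := b.orthonormal.2 (by decide)
  simp only [inner_add_right, inner_smul_right, h00, h11, h01, h10]
  simp

lemma inner_eq_basis {H : Type*} [NormedAddCommGroup H] [InnerProductSpace ℝ H]
    (b : OrthonormalBasis (Fin 2) ℝ H) (v w : H) :
    ⟪v, w⟫ = ⟪b 0, v⟫ * ⟪b 0, w⟫ + ⟪b 1, v⟫ * ⟪b 1, w⟫ := by
  conv_lhs => rw [expand b v]
  rw [inner_add_left, inner_smul_left, inner_smul_left]
  simp

lemma Q_on_plane {u : E3} (b : OrthonormalBasis (Fin 2) ℝ (Hyp u)) (m : ℝ)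
    (hm : ∀ v : Hyp u, (v : E3) 2 = m * ⟪b 1, v⟫) (v : Hyp u) :
    Q (v : E3) = (⟪b 0, v⟫ ^ 2 + ⟪b 1, v⟫ ^ 2) * (⟪b 0, v⟫ ^ 2 + (1 + m ^ 2) * ⟪b 1, v⟫ ^ 2) := by
  rw [Q, hm v, ← Submodule.coe_norm, norm_sq_basis b v]
  ring

lemma projection_good (hu : ‖u‖ = 1) :
    IsLinearImageOfCompletelySymmetric (hyperplaneProjection K u) := by
  obtain ⟨b, m, hm⟩ := exists_basis u hu
  have hs : 0 < 1 + m ^ 2 := by positivity
  set c : ℝ := √(√(1 + m ^ 2)) with hc
  have hcpos : 0 < c := by positivity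
  have hc4 : c ^ 4 = 1 + m ^ 2 := by
    have h1 : c ^ 4 = ((√(√(1 + m ^ 2))) ^ 2) ^ 2 := by rw [hc]; ring
    rw [h1, Real.sq_sqrt (Real.sqrt_nonneg _), Real.sq_sqrt hs.le]
  let T : Hyp u ≃ₗ[ℝ] Hyp u := dil b c hcpos.ne'
  have hT : ∀ w, T w = ⟪b 0, w⟫ • b 0 + (c * ⟪b 1, w⟫) • b 1 := fun w => rfl
  have hT0 : ∀ w, ⟪b 0, T w⟫ = ⟪b 0, w⟫ := fun w => by rw [hT]; exact (b_inner b _ _).1
  have hT1 : ∀ w, ⟪b 1, T w⟫ = c * ⟪b 1, w⟫ := fun w => by rw [hT]; exact (b_inner b _ _).2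
  -- the completely symmetric set
  let A : Set (Hyp u) := T ⁻¹' (hyperplaneProjection K u)
  have hA : ∀ w, w ∈ A ↔ ∀ v : Hyp u, ⟪T w, v⟫ ≤ N (v : E3) := fun w => mem_proj_iff u (T w)
  have hJA : ∀ w, w ∈ A → rot b w ∈ A := by
    intro w hw
    rw [hA] at hw ⊢
    intro v
    -- compare with the point `v'` obtained from `v` by the corresponding rotation
    let v' : Hyp u := (c * ⟪b 1, v⟫) • b 0 + (-(c⁻¹ * ⟪b 0, v⟫)) • b 1
    have hv0 : ⟪b 0, v'⟫ = c * ⟪b 1, v⟫ := (b_inner b _ _).1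
    have hv1 : ⟪b 1, v'⟫ = -(c⁻¹ * ⟪b 0, v⟫) := (b_inner b _ _).2
    have h1 := hw v'
    have h2 : ⟪T (rot b w), v⟫ = ⟪T w, v'⟫ := by
      rw [inner_eq_basis b (T (rot b w)) v, inner_eq_basis b (T w) v', hT0, hT1, hT0, hT1, hv0, hv1]
      have r0 : ⟪b 0, rot b w⟫ = -⟪b 1, w⟫ := (b_inner b _ _).1
      have r1 : ⟪b 1, rot b w⟫ = ⟪b 0, w⟫ := (b_inner b _ _).2
      rw [r0, r1]
      field_simp
      ring
    have h3 : N (v' : E3) = N (v : E3) := by
      have h4 : N (v' : E3) ^ 4 = N (v : E3) ^ 4 := by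
        rw [N_pow, N_pow, Q_on_plane b m hm, Q_on_plane b m hm, hv0, hv1, ← hc4]
        field_simp
        ring
      exact (pow_left_inj₀ (N_nonneg _) (N_nonneg _) (by norm_num)).1 h4
    rw [h2, ← h3]
    exact h1
  have hrr : ∀ w, rot b (rot b w) = -w := by
    intro w
    have r0 : ∀ w, ⟪b 0, rot b w⟫ = -⟪b 1, w⟫ := fun w => (b_inner b _ _).1
    have r1 : ∀ w, ⟪b 1, rot b w⟫ = ⟪b 0, w⟫ := fun w => (b_inner b _ _).2
    rw [expand b (rot b (rot b w)), r0, r1, r1, r0]
    conv_rhs => rw [expand b w]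
    module
  have hnegA : ∀ w, w ∈ A → -w ∈ A := by
    intro w hw
    rw [← hrr]
    exact hJA _ (hJA _ hw)
  have hTc : Continuous T := LinearMap.continuous_of_finiteDimensional (T : Hyp u →ₗ[ℝ] Hyp u)
  have hTsc : Continuous T.symm :=
    LinearMap.continuous_of_finiteDimensional (T.symm : Hyp u →ₗ[ℝ] Hyp u)
  have hPc : IsCompact (hyperplaneProjection K u) :=
    K_compact.image (perp u).orthogonalProjectionOnto.continuous
  have hAc : IsCompact A := by
    have : A = T.symm '' (hyperplaneProjection K u) := by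
      ext w
      constructor
      · intro hw
        exact ⟨T w, hw, T.symm_apply_apply w⟩
      · rintro ⟨x, hx, rfl⟩
        show T (T.symm x) ∈ hyperplaneProjection K u
        rwa [T.apply_symm_apply]
    rw [this]
    exact hPc.image hTsc
  have hball : T ⁻¹' (ball 0 1) ⊆ A := by
    intro w hw
    have hw' : ‖T w‖ < 1 := mem_ball_zero_iff.1 hw
    have hn : ‖((T w : Hyp u) : E3)‖ = ‖T w‖ := rfl
    exact ⟨(T w : E3), ball_subset_K (hn.trans_le hw'.le),
      Submodule.orthogonalProjectionOnto_mem_subspace_eq_self (T w)⟩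
  have hop : IsOpen (T ⁻¹' (ball (0 : Hyp u) 1)) := isOpen_ball.preimage hTc
  have h0mem : (0 : Hyp u) ∈ T ⁻¹' (ball (0 : Hyp u) 1) := by
    rw [mem_preimage, map_zero]
    exact mem_ball_self one_pos
  have hint : (interior A).Nonempty := ⟨0, mem_interior.2 ⟨_, hball, hop, h0mem⟩⟩
  refine ⟨A, T, ⟨⟨?_, hAc.measure_lt_top, ?_, ?_⟩, ?_⟩, ?_⟩
  · exact Measure.measure_pos_of_nonempty_interior _ hint
  · exact continuous_id.continuousOn.integrableOn_compact hAc
  · have hmp := (LinearIsometryEquiv.neg ℝ (E := Hyp u)).measurePreserving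
    have hpre : (LinearIsometryEquiv.neg ℝ (E := Hyp u)) ⁻¹' A = A := by
      ext w
      constructor
      · intro hw
        have hw' : -w ∈ A := hw
        have := hnegA _ hw'
        rwa [neg_neg] at this
      · intro hw
        exact hnegA _ hw
    have h1 := hmp.setIntegral_preimage_emb
      (LinearIsometryEquiv.neg ℝ (E := Hyp u)).toHomeomorph.measurableEmbedding
      (fun x : Hyp u => x) A
    rw [hpre] at h1
    have h2 : ∫ x in A, (LinearIsometryEquiv.neg ℝ (E := Hyp u)) x ∂volume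
        = - ∫ x in A, x ∂volume := by
      rw [← integral_neg]
      rfl
    rw [h2] at h1
    have h3 : (2 : ℝ) • ∫ x in A, x ∂volume = 0 := by
      rw [two_smul]
      nth_rewrite 1 [← h1]
      exact neg_add_cancel _
    exact (smul_eq_zero.1 h3).resolve_left two_ne_zero
  · refine complete_of_rot b (rot b) ?_ ?_ _ ?_
    · have h00 : ⟪b 0, b 0⟫ = (1 : ℝ) := by
        rw [real_inner_self_eq_norm_sq, b.orthonormal.1]; norm_num
      have h10 : ⟪b 1, b 0⟫ = (0 : ℝ) := b.orthonormal.2 (by decide)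
      show (-⟪b 1, b 0⟫) • b 0 + ⟪b 0, b 0⟫ • b 1 = b 1
      rw [h00, h10]
      module
    · have h11 : ⟪b 1, b 1⟫ = (1 : ℝ) := by
        rw [real_inner_self_eq_norm_sq, b.orthonormal.1]; norm_num
      have h01 : ⟪b 0, b 1⟫ = (0 : ℝ) := b.orthonormal.2 (by decide)
      show (-⟪b 1, b 1⟫) • b 0 + ⟪b 0, b 1⟫ • b 1 = -b 0
      rw [h11, h01]
      module
    · show (rot b).toIsometryEquiv '' A = A
      apply Subset.antisymm
      · rintro _ ⟨w, hw, rfl⟩
        exact hJA w hw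
      · intro w hw
        refine ⟨rot b (rot b (rot b w)), hJA _ (hJA _ (hJA _ hw)), ?_⟩
        show rot b (rot b (rot b (rot b w))) = w
        rw [hrr (rot b (rot b w)), hrr w, neg_neg]
  · exact (image_preimage_eq _ T.surjective).symm

end Proj

/-- There is a convex body in `ℝ³` that is not an origin-symmetric ellipsoid although each of its
orthogonal projections onto a plane through the origin is a linear image of a completely symmetric
set. -/
theorem result : ∃ K : Set (EuclideanSpace ℝ (Fin 3)), IsConvexBody K ∧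
    AllProjectionsAreLinearImages K ∧ ¬ IsOriginSymmetricEllipsoid K :=
  ⟨K, K_body, fun u hu => projection_good u hu, not_ellipsoid⟩

end Pool.Agent.Results.MP_b27533_gt.QuarticBody
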